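import Mathlib
import Pool.Agent.H50.SkelB

set_option autoImplicit false
open scoped BigOperators

namespace Pool.Agent.Results.MP_7bb607_co.Counter

section Generic

variable {n : ℕ} {A : Type} [Ring A] [Algebra ℝ A]

/-- `σ̄`: the product of the `x v`, `v ∈ σ` (in increasing order of `v`). -/
def bar (x : Fin n → A) (σ : Finset (Fin n)) : A :=
  (((List.finRange n).filter (fun v => v ∈ σ)).map x).prod

/-- Representatives of chains on the faces with `k` vertices (dimension `i = k-1`): a coefficient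
in `g (r-k)` (later `Λ^(r-k) W = Λ^(r-1-i) W`) on each such face, zero elsewhere. -/
def F (g : ℕ → Submodule ℝ A) (r k : ℕ) (Δ : Finset (Finset (Fin n))) :
    Submodule ℝ (Finset (Fin n) → A) :=
  Submodule.pi Set.univ (fun σ => if σ ∈ Δ ∧ σ.card = k then g (r - k) else ⊥)

/-- Families of coefficients that vanish in the chain space: `c_σ ∧ σ̄ = 0` for every `σ`. -/
def Nl (x : Fin n → A) : Submodule ℝ (Finset (Fin n) → A) :=
  Submodule.pi Set.univ (fun σ => LinearMap.ker (LinearMap.mulRight ℝ (bar x σ)))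

/-- The boundary on representatives: `c·σ ↦ ∑_{v ∈ σ} (c ∧ x v)·(σ \ {v})`, i.e. the coefficient
of `D c` on `τ` is `∑_{v ∉ τ} c_(τ ∪ {v}) ∧ x v`. -/
def D (x : Fin n → A) : (Finset (Fin n) → A) →ₗ[ℝ] (Finset (Fin n) → A) :=
  LinearMap.pi (fun τ => ∑ v ∈ τᶜ, LinearMap.mulRight ℝ (x v) ∘ₗ LinearMap.proj (insert v τ))

/-- Representatives of cycles on faces with `k` vertices. -/
def Z (g : ℕ → Submodule ℝ A) (x : Fin n → A) (r k : ℕ) (Δ : Finset (Finset (Fin n))) :
    Submodule ℝ (Finset (Fin n) → A) :=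
  F g r k Δ ⊓ (Nl x).comap (D x)

/-- Representatives of boundaries on faces with `k` vertices (used for `k < r`). -/
def B (g : ℕ → Submodule ℝ A) (x : Fin n → A) (r k : ℕ) (Δ : Finset (Finset (Fin n))) :
    Submodule ℝ (Finset (Fin n) → A) :=
  (F g r (k + 1) Δ).map (D x) ⊔ (F g r k Δ ⊓ Nl x)

/-- `dim (ker ∂ / im ∂) = dim (Z / B)`. -/
noncomputable def hdim (g : ℕ → Submodule ℝ A) (x : Fin n → A) (r k : ℕ)
    (Δ : Finset (Finset (Fin n))) : ℕ :=
  Module.finrank ℝ (Z g x r k Δ ⧸ (B g x r k Δ).comap (Z g x r k Δ).subtype)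

end Generic

variable {n d : ℕ}

/-- Homogeneous coordinates `(y, 1)` of a point `y` of `ℝ^d`, a vector of `W = ℝ^(d+1)`. -/
def hom (y : Fin d → ℝ) : Fin (d + 1) → ℝ := Fin.snoc (α := fun _ => ℝ) y 1

/-- `β_{k-1}(R_{d,r}(Δ; p))` for `k < r`: coefficients in the exterior powers of `W = ℝ^(d+1)`,
and `x v = p̄_v`. -/
noncomputable def betti (r k : ℕ) (Δ : Finset (Finset (Fin n))) (p : Fin n → Fin d → ℝ) : ℕ :=
  hdim (A := ExteriorAlgebra ℝ (Fin (d + 1) → ℝ))
    (fun j => ExteriorAlgebra.exteriorPower ℝ j (Fin (d + 1) → ℝ))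
    (fun v => ExteriorAlgebra.ι ℝ (hom (p v))) r k Δ

/-- A simplicial complex (with the empty face) on vertices taken from `Fin n`. -/
def IsComplex (Δ : Finset (Finset (Fin n))) : Prop :=
  ∅ ∈ Δ ∧ ∀ σ ∈ Δ, ∀ τ, τ ⊆ σ → τ ∈ Δ

/-- The vertices of each face with at most `r` vertices (dimension `≤ r-1`) are affinely
independent. -/
def Adm (r : ℕ) (Δ : Finset (Finset (Fin n))) (p : Fin n → Fin d → ℝ) : Prop :=
  ∀ σ ∈ Δ, σ.card ≤ r → AffineIndependent ℝ (fun v : σ => p v)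

/-- Vertical projection: forget the last coordinate. -/
def proj (p : Fin n → Fin (d + 1) → ℝ) : Fin n → Fin d → ℝ := fun v => Fin.init (p v)

/-- A pure `(r-1)`-dimensional complex and a configuration in `ℝ^(d+1)`, `d + 1 ≥ r`, with no
vertical face, whose Betti number `β_{k-1}`, `k - 1 < r - 1`, is smaller than that of the vertical
projection to `ℝ^d`. -/
theorem result : ∃ (n d r k : ℕ) (Δ : Finset (Finset (Fin n))) (p : Fin n → Fin (d + 1) → ℝ),
    1 ≤ r ∧ r ≤ d + 1 ∧ k < r ∧ IsComplex Δ ∧ (∀ v, {v} ∈ Δ) ∧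
    (∀ σ ∈ Δ, σ.card ≤ r ∧ ∃ τ ∈ Δ, σ ⊆ τ ∧ τ.card = r) ∧
    Adm r Δ p ∧ Adm r Δ (proj p) ∧ betti r k Δ p < betti r k Δ (proj p) :=
  Pool.Agent.H50.Skel2.main

end Pool.Agent.Results.MP_7bb607_co.Counter
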